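import Mathlib

namespace Pool.Agent.Results.MP_6ad575_co.Counter

section defs
variable {S : Type} [AddCommMonoid S]

/-- The cyclic subsemigroup `⟨x⟩ = {m x : m ≥ 1}`. -/
def cyc (x : S) : Set S := {y | ∃ m : ℕ, 1 ≤ m ∧ y = m • x}

/-- The subset `C` is a group under the addition of `S` (with its own identity element). -/
def IsGroupSet (C : Set S) : Prop :=
  (∀ x ∈ C, ∀ y ∈ C, x + y ∈ C) ∧
    ∃ z ∈ C, (∀ x ∈ C, z + x = x) ∧ ∀ x ∈ C, ∃ y ∈ C, x + y = z

/-- `d(S,R)`, where `e x` is the idempotent of `⟨x⟩`. -/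
noncomputable def dSR (e : S → S) (R : Type) [CommRing R] : ℕ∞ :=
  ⨆ (l : ℕ) (_ : ∃ s : Fin l → S, ∀ a : Fin l → R, (∀ i, a i ≠ 0) →
    ∏ i, (AddMonoidAlgebra.single (s i) (1 : R) - AddMonoidAlgebra.single (e (s i)) (a i)
      : AddMonoidAlgebra R S) ≠ 0), (l : ℕ∞)

/-- `a ⪯ b`. -/
def Pre (a b : S) : Prop := a = b ∨ ∃ c, a = b + c

lemma Pre.ex {a b : S} (h : Pre a b) : ∃ c, a = b + c := by
  rcases h with h | h
  · exact ⟨0, by simp [h]⟩
  · exact h

/-- Green's congruence `𝓗`. -/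
def H (S : Type) [AddCommMonoid S] : AddCon S where
  r a b := Pre a b ∧ Pre b a
  iseqv :=
    { refl := fun a => ⟨Or.inl rfl, Or.inl rfl⟩
      symm := fun h => ⟨h.2, h.1⟩
      trans := fun {a b c} h1 h2 => by
        obtain ⟨x, hx⟩ := h1.1.ex
        obtain ⟨y, hy⟩ := h2.1.ex
        obtain ⟨z, hz⟩ := h1.2.ex
        obtain ⟨w, hw⟩ := h2.2.ex
        exact ⟨Or.inr ⟨y + x, by rw [hx, hy, add_assoc]⟩,
          Or.inr ⟨z + w, by rw [hw, hz, add_assoc]⟩⟩ }
  add' := fun {a b c d} h1 h2 => by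
    obtain ⟨x, hx⟩ := h1.1.ex
    obtain ⟨y, hy⟩ := h2.1.ex
    obtain ⟨z, hz⟩ := h1.2.ex
    obtain ⟨w, hw⟩ := h2.2.ex
    refine ⟨Or.inr ⟨x + y, ?_⟩, Or.inr ⟨z + w, ?_⟩⟩
    · rw [add_add_add_comm, ← hx, ← hy]
    · rw [add_add_add_comm, ← hz, ← hw]

/-- A sequence (multiset) is irreducible if no proper subsequence, the empty one included,
has the same sum. -/
def Irred {T : Type} [AddCommMonoid T] (M : Multiset T) : Prop := ∀ N < M, N.sum ≠ M.sum

/-- The relative Davenport constant `D_b(T)` (it is `0` for `b = 0`). -/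
noncomputable def D {T : Type} [AddCommMonoid T] (b : T) : ℕ∞ :=
  ⨆ (M : Multiset T) (_ : Irred M ∧ M.sum = b), (M.card : ℕ∞)

end defs

/-- Truncated addition on `{0,1,2}`. -/
def tr (a b : Fin 3) : Fin 3 := if a = 0 then b else if b = 0 then a else 2

/-- The witness: subsets of `ℕ` under union, times `{0,1,2}` under truncated addition. -/
def W : Type := Set ℕ × Fin 3

instance : Add W := ⟨fun x y => (x.1 ∪ y.1, tr x.2 y.2)⟩
instance : Zero W := ⟨(∅, 0)⟩

lemma add1 (x y : W) : (x + y).1 = x.1 ∪ y.1 := rfl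
lemma add2 (x y : W) : (x + y).2 = tr x.2 y.2 := rfl
lemma ext' {x y : W} (h1 : x.1 = y.1) (h2 : x.2 = y.2) : x = y := Prod.ext h1 h2

instance : AddCommMonoid W where
  add_assoc x y z := ext' (Set.union_assoc _ _ _) (by
    simp only [add2]
    exact (by decide : ∀ a b c : Fin 3, tr (tr a b) c = tr a (tr b c)) _ _ _)
  zero_add x := ext' (Set.empty_union _) ((by decide : ∀ a : Fin 3, tr 0 a = a) _)
  add_zero x := ext' (Set.union_empty _) ((by decide : ∀ a : Fin 3, tr a 0 = a) _)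
  add_comm x y := ext' (Set.union_comm _ _) ((by decide : ∀ a b : Fin 3, tr a b = tr b a) _ _)
  nsmul := nsmulRec

lemma cyc_spec (x : W) : ∀ y ∈ cyc x, y.1 = x.1 ∧ (x.2 ≠ 0 → y.2 ≠ 0) := by
  rintro y ⟨m, hm, rfl⟩
  induction m, hm using Nat.le_induction with
  | base => simp
  | succ m _ ih =>
    rw [succ_nsmul, add1, add2, ih.1, Set.union_self]
    exact ⟨rfl, fun h => (by decide : ∀ a b : Fin 3, b ≠ 0 → tr a b ≠ 0) _ _ h⟩

lemma mem_sum (i : ℕ) (N : Multiset W) (h : i ∈ N.sum.1) : ∃ y ∈ N, i ∈ y.1 := by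
  induction N using Multiset.induction_on with
  | empty => exact absurd h (Set.notMem_empty i)
  | cons a N ih =>
    rw [Multiset.sum_cons, add1] at h
    rcases h with h | h
    · exact ⟨a, by simp, h⟩
    · obtain ⟨y, hy, h'⟩ := ih h
      exact ⟨y, by simp [hy], h'⟩

lemma mem_sum' (i : ℕ) (N : Multiset W) (y : W) (hy : y ∈ N) (h : i ∈ y.1) : i ∈ N.sum.1 := by
  obtain ⟨N', rfl⟩ := Multiset.exists_cons_of_mem hy
  rw [Multiset.sum_cons, add1]
  exact Or.inl h

lemma snd_sum (N : Multiset W) (h : ∀ y ∈ N, y.2 = 0) : N.sum.2 = 0 := by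
  induction N using Multiset.induction_on with
  | empty => rfl
  | cons a N ih =>
    rw [Multiset.sum_cons, add2, h a (by simp), ih fun y hy => h y (by simp [hy])]
    rfl

def g (n i : ℕ) : W := ({i}, if i = n then 1 else 0)

lemma g_inj (n : ℕ) : Function.Injective (g n) := fun i j h => by
  have : ({i} : Set ℕ) = {j} := congrArg Prod.fst h
  simpa using this

lemma irr (n : ℕ) : Irred ((Multiset.range (n + 1)).map (g n)) := by
  intro N hN hs
  have hnd : ((Multiset.range (n + 1)).map (g n)).Nodup :=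
    (Multiset.nodup_range _).map (g_inj n)
  apply hN.not_ge
  rw [Multiset.le_iff_subset hnd]
  intro y hy
  obtain ⟨i, hi, rfl⟩ := Multiset.mem_map.1 hy
  have h1 := mem_sum' i _ _ hy (Set.mem_singleton i)
  rw [← hs] at h1
  obtain ⟨z, hz, hiz⟩ := mem_sum i N h1
  obtain ⟨j, -, rfl⟩ := Multiset.mem_map.1 (Multiset.mem_of_le hN.le hz)
  have : i = j := hiz
  rwa [this]

lemma sum_snd (n : ℕ) : ((Multiset.range (n + 1)).map (g n)).sum.2 = 1 := by
  rw [Multiset.range_succ, Multiset.map_cons, Multiset.sum_cons, add2, snd_sum]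
  · simp [g, tr]
  · intro y hy
    obtain ⟨i, hi, rfl⟩ := Multiset.mem_map.1 hy
    have : i ≠ n := (Multiset.mem_range.1 hi).ne
    simp [g, this]

lemma H_eq {a b : W} (h : H W a b) : a = b := by
  obtain ⟨x, hx⟩ := Pre.ex h.1
  obtain ⟨y, hy⟩ := Pre.ex h.2
  apply ext'
  · apply Set.Subset.antisymm
    · rw [hy, add1]; exact Set.subset_union_left
    · rw [hx, add1]; exact Set.subset_union_left
  · exact (by decide : ∀ a b x y : Fin 3, a = tr b x → b = tr a y → a = b) _ _ x.2 y.2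
      (congrArg Prod.snd hx) (congrArg Prod.snd hy)

lemma two_zero (R : Type) [CommRing R] (s t : W) :
    (AddMonoidAlgebra.single s (1 : R) - AddMonoidAlgebra.single (s + s) (1 : R)
      : AddMonoidAlgebra R W) *
      (AddMonoidAlgebra.single t (1 : R) - AddMonoidAlgebra.single (t + t) (1 : R)) = 0 := by
  by_cases hs : s.2 = 0
  · have : s + s = s := ext' (Set.union_self _) (by rw [add2, hs]; rfl)
    rw [this, sub_self, zero_mul]
  by_cases ht : t.2 = 0
  · have : t + t = t := ext' (Set.union_self _) (by rw [add2, ht]; rfl)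
    rw [this, sub_self, mul_zero]
  have h1 : s + (t + t) = s + t := ext' (by simp only [add1, Set.union_self]) (by
    simp only [add2]
    exact (by decide : ∀ a b : Fin 3, a ≠ 0 → b ≠ 0 → tr a (tr b b) = tr a b) _ _ hs ht)
  have h2 : s + s + (t + t) = s + s + t := by rw [add_assoc, h1, add_assoc]
  simp only [mul_sub, sub_mul, AddMonoidAlgebra.single_mul_single, h1, h2, sub_self]

theorem result : ∃ (S : Type) (_ : AddCommMonoid S) (e : S → S),
    (∀ x : S, (cyc x).Finite) ∧ (∀ x : S, e x ∈ cyc x ∧ e x + e x = e x) ∧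
    (∀ (R : Type) [CommRing R] [Nontrivial R], dSR e R < ⊤) ∧
    (⨆ (a : S) (_ : ¬ IsGroupSet (cyc a)), D ((H S).mk' a)) = ⊤ := by
  refine ⟨W, inferInstance, fun x => x + x, fun x => ?_, fun x => ⟨⟨2, by norm_num, ?_⟩, ?_⟩,
    fun R _ _ => ?_, ?_⟩
  · refine (Set.finite_range fun c : Fin 3 => ((x.1, c) : W)).subset fun y hy => ⟨y.2, ?_⟩
    exact ext' (cyc_spec x y hy).1.symm rfl
  · rw [two_nsmul]
  · refine ext' (by simp only [add1, Set.union_self]) ?_
    simp only [add2]
    exact (by decide : ∀ a : Fin 3, tr (tr a a) (tr a a) = tr a a) _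
  · refine lt_of_le_of_lt (b := 1) ?_ (by simp)
    refine iSup₂_le fun l hl => ?_
    obtain ⟨s, hs⟩ := hl
    rcases l with _ | _ | l
    · simp
    · simp
    · exfalso
      apply hs (fun _ => 1) (fun _ => one_ne_zero)
      rw [Fin.prod_univ_succ, Fin.prod_univ_succ, ← mul_assoc, two_zero, zero_mul]
  · rw [ENat.eq_top_iff_forall_ge]
    intro n
    set M0 := (Multiset.range (n + 1)).map (g n) with hM0
    have hng : ¬ IsGroupSet (cyc M0.sum) := by
      rintro ⟨-, z, hz, h1, -⟩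
      have h2 := (cyc_spec _ z hz).2 (by rw [sum_snd]; decide)
      have h3 := congrArg Prod.snd (h1 M0.sum ⟨1, le_rfl, (one_nsmul _).symm⟩)
      rw [add2, sum_snd] at h3
      exact h2 ((by decide : ∀ a : Fin 3, tr a 1 = 1 → a = 0) _ h3)
    let f : (H W).Quotient →+ W := (H W).lift (AddMonoidHom.id W) fun a b h => H_eq h
    have hf : ∀ x, f ((H W).mk' x) = x := fun x => rfl
    have hirr : Irred (M0.map (H W).mk') := by
      intro N hN hs
      have h1 : (M0.map (H W).mk').map f = M0 := by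
        rw [Multiset.map_map]
        exact (Multiset.map_congr rfl fun x _ => hf x).trans (Multiset.map_id _)
      have h2 := Multiset.map_lt_map (f := f) hN
      rw [h1] at h2
      apply irr n _ h2
      rw [← map_multiset_sum, hs, map_multiset_sum, h1]
    refine le_iSup₂_of_le M0.sum hng (le_iSup₂_of_le (M0.map (H W).mk')
      ⟨hirr, (map_multiset_sum _ _).symm⟩ ?_)
    simp [hM0]

end Pool.Agent.Results.MP_6ad575_co.Counter
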